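import Mathlib
import Pool.Agent.H97.L.S8.H438R2.BR.Defs
import Pool.Agent.H97.L.S8.H438R2.BR.JDef
set_option autoImplicit false

/-! # Zonal densities on the sphere: definitions -/

namespace Pool.Agent.H438R2.ZD

open MeasureTheory Set Complex
open Pool.Agent.H438R2.BR (Phi Q)

/-- The profile of the Fourier transform of a zonal density. -/
noncomputable def Fz (k : ℕ) (G : ℝ → ℂ) (r t : ℝ) : ℂ :=
  ∫ θ in Q, G θ * (((Real.cos θ) ^ (k - 1) : ℝ) : ℂ) *
    (Phi k (r * Real.cos θ) * Complex.exp (-((t * Real.sin θ : ℝ) : ℂ) * I))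

end Pool.Agent.H438R2.ZD
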